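import Pool.Agent.H45.ARMain

set_option autoImplicit false

open Pool.Agent.H45.AR

namespace Pool.Agent.Results.MP_a29a94_pr.LiouvillePair

/-- A symmetric non-degenerate Liouville random walk on a finitely generated group which is not
algebraically recurrent. -/
theorem result : ∃ (G : Type) (_ : Group G) (_ : Countable G) (μ : PMF G),
    Group.FG G ∧ Admissible μ ∧
    (∀ f : G → ℝ, (∃ M : ℝ, ∀ g, |f g| ≤ M) →
      (∀ g, f g = ∑' h, (μ h).toReal * f (g * h)) → ∀ g h, f g = f h) ∧
    ¬ IsARPair μ := by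
  obtain ⟨μ, h1, h2, h3⟩ := Wr_pair
  exact ⟨Wr, inferInstance, inferInstance, μ,
    Group.fg_iff.2 ⟨_, Wr.gen, Set.toFinite _⟩, h1, h2, h3⟩

end Pool.Agent.Results.MP_a29a94_pr.LiouvillePair
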